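import Mathlib

namespace Pool.Agent.H.MP_a8acf3_co
open Finset

/-- a nonempty envy-free matching -/
lemma efm {α β : Type} [DecidableEq α] [DecidableEq β] (N : Finset α) (G : Finset β)
    (hG : G.Nonempty) (hc : N.card ≤ G.card) (like : α → β → Prop)
    (hl : ∀ y ∈ G, ∃ i ∈ N, like i y) :
    ∃ (Y : Finset β) (f : β → α), Y ⊆ G ∧ Y.Nonempty ∧ Set.InjOn f Y ∧
      (∀ y ∈ Y, f y ∈ N ∧ like (f y) y) ∧ ∀ i ∈ N, i ∉ Y.image f → ∀ y ∈ Y, ¬ like i y := by
  classical
  let t : β → Finset α := fun y => N.filter (like · y)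
  let P : Finset (Finset β) := G.powerset.filter (fun Y => Y.Nonempty ∧ (Y.biUnion t).card ≤ Y.card)
  have hP : G ∈ P := by
    simp only [P, mem_filter, mem_powerset, subset_refl, true_and]
    exact ⟨hG, (card_le_card (biUnion_subset.2 fun y _ => filter_subset _ _)).trans hc⟩
  obtain ⟨Y, hY, hmin⟩ := exists_min_image P card ⟨G, hP⟩
  simp only [P, mem_filter, mem_powerset] at hY hmin
  obtain ⟨hYG, hYn, hYc⟩ := hY
  have h1 : ∀ Z ⊆ Y, Z.card < Y.card → Z.Nonempty → Z.card < (Z.biUnion t).card := by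
    intro Z hZ hlt hn
    by_contra h
    have := hmin Z ⟨hZ.trans hYG, hn, not_lt.1 h⟩
    omega
  have hall : ∀ Z ⊆ Y, Z.card ≤ (Z.biUnion t).card := by
    intro Z hZ
    rcases Z.eq_empty_or_nonempty with rfl | ⟨y, hy⟩
    · simp
    rcases (Z.erase y).eq_empty_or_nonempty with h | h
    · have : Z.card = 1 := by
        have := card_erase_add_one hy; rw [h] at this; simpa using this.symm
      obtain ⟨i, hi, hli⟩ := hl y (hYG (hZ hy))
      rw [this]
      exact card_pos.2 ⟨i, mem_biUnion.2 ⟨y, hy, mem_filter.2 ⟨hi, hli⟩⟩⟩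
    · have a1 := card_erase_add_one hy
      have a2 := h1 (Z.erase y) ((erase_subset _ _).trans hZ) (by have := card_le_card hZ; omega) h
      have a3 : ((Z.erase y).biUnion t).card ≤ (Z.biUnion t).card :=
        card_le_card (biUnion_subset_biUnion_of_subset_left _ (erase_subset _ _))
      omega
  obtain ⟨g, hg1, hg2⟩ := (all_card_le_biUnion_card_iff_exists_injective
    (fun y : Y => t y)).1 (by
      intro s
      have := hall (s.map (Function.Embedding.subtype _)) (by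
        intro y hy; obtain ⟨z, -, rfl⟩ := mem_map.1 hy; exact z.2)
      rw [card_map] at this
      convert this using 2
      ext i; simp)
  obtain ⟨y0, hy0⟩ := hYn
  let f : β → α := fun y => if h : y ∈ Y then g ⟨y, h⟩ else g ⟨y0, hy0⟩
  have hf : ∀ y (h : y ∈ Y), f y = g ⟨y, h⟩ := fun y h => by simp [f, h]
  have hinj : Set.InjOn f Y := by
    intro y hy z hz e
    rw [hf y hy, hf z hz] at e
    exact congrArg Subtype.val (hg1 e)
  have hmem : ∀ y ∈ Y, f y ∈ t y := fun y h => by rw [hf y h]; exact hg2 ⟨y, h⟩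
  refine ⟨Y, f, hYG, ⟨y0, hy0⟩, hinj, fun y h => mem_filter.1 (hmem y h), ?_⟩
  intro i hi hni y hy hli
  have : Y.image f = Y.biUnion t := by
    apply eq_of_subset_of_card_le
    · intro j hj
      obtain ⟨z, hz, rfl⟩ := mem_image.1 hj
      exact mem_biUnion.2 ⟨z, hz, hmem z hz⟩
    · rw [card_image_of_injOn hinj]; exact hYc
  exact hni (this ▸ mem_biUnion.2 ⟨y, hy, mem_filter.2 ⟨hi, hli⟩⟩)

lemma groups {β : Type} [DecidableEq β] (G : Finset β) (z : β → ℕ) (S : Finset ℕ)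
    (h : ∑ y ∈ G, z y ≤ S.card) :
    ∃ g : β → Finset ℕ, (∀ y ∈ G, g y ⊆ S ∧ (g y).card = z y) ∧
      ∀ y ∈ G, ∀ y' ∈ G, y ≠ y' → Disjoint (g y) (g y') := by
  induction G using Finset.induction_on generalizing S with
  | empty => exact ⟨fun _ => ∅, by simp, by simp⟩
  | insert a G ha ih =>
    rw [sum_insert ha] at h
    obtain ⟨T, hT, hc⟩ := exists_subset_card_eq (s := S) (n := z a) (by omega)
    obtain ⟨g, h1, h2⟩ := ih (S \ T) (by rw [card_sdiff_of_subset hT]; omega)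
    have hne : ∀ y ∈ G, y ≠ a := fun y hy e => ha (e ▸ hy)
    refine ⟨Function.update g a T, ?_, ?_⟩
    · intro y hy
      rcases mem_insert.1 hy with rfl | hy
      · simp [hT, hc]
      · rw [Function.update_of_ne (hne y hy)]
        exact ⟨(h1 y hy).1.trans sdiff_subset, (h1 y hy).2⟩
    · intro y hy y' hy' hyy
      by_cases e : y = a <;> by_cases e' : y' = a
      · exact absurd (e.trans e'.symm) hyy
      · rw [e, Function.update_self, Function.update_of_ne e']
        exact disjoint_sdiff.mono_right (h1 _ (mem_of_mem_insert_of_ne hy' e')).1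
      · rw [e', Function.update_self, Function.update_of_ne e]
        exact (disjoint_sdiff.mono_right (h1 _ (mem_of_mem_insert_of_ne hy e)).1).symm
      · rw [Function.update_of_ne e, Function.update_of_ne e']
        exact h2 y (mem_of_mem_insert_of_ne hy e) y' (mem_of_mem_insert_of_ne hy' e') hyy

lemma best (w : ℕ → ℝ) (K j : ℕ) (hj : j ≤ K) (T : Finset ℕ) (hT : T.card ≤ K)
    (hw : ∀ x ∈ T, 0 ≤ w x) :
    ∃ U ⊆ T, U.card ≤ j ∧ (j : ℝ) * ∑ x ∈ T, w x ≤ K * ∑ x ∈ U, w x := by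
  induction K, hj using Nat.le_induction generalizing T with
  | base => exact ⟨T, subset_refl _, hT, le_rfl⟩
  | succ K hK ih =>
    have hs : 0 ≤ ∑ x ∈ T, w x := sum_nonneg hw
    have key : ∃ T' ⊆ T, T'.card ≤ K ∧ (K : ℝ) * ∑ x ∈ T, w x ≤ (K + 1) * ∑ x ∈ T', w x := by
      rcases hT.eq_or_lt with h | h
      · obtain ⟨x, hx, hm⟩ := exists_min_image T w (card_pos.1 (by omega))
        refine ⟨T.erase x, erase_subset _ _, by rw [card_erase_of_mem hx]; omega, ?_⟩
        have a1 := card_nsmul_le_sum T w (w x) hm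
        have a2 := add_sum_erase T w hx
        rw [h, nsmul_eq_mul] at a1
        push_cast at a1
        nlinarith
      · exact ⟨T, subset_refl _, by omega, by nlinarith⟩
    obtain ⟨T', h1, h2, h3⟩ := key
    obtain ⟨U, u1, u2, u3⟩ := ih T' h2 (fun x hx => hw x (h1 hx))
    refine ⟨U, u1.trans h1, u2, ?_⟩
    have hU : 0 ≤ ∑ x ∈ U, w x := sum_nonneg fun x hx => hw x (h1 (u1 hx))
    rcases Nat.eq_zero_or_pos K with rfl | hK0
    · have : j = 0 := by omega
      subst this; simpa using hU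
    · have hK' : (0 : ℝ) < K := by exact_mod_cast hK0
      have hj0 : (0 : ℝ) ≤ j := Nat.cast_nonneg j
      push_cast
      refine le_of_mul_le_mul_left ?_ hK'
      nlinarith [mul_le_mul_of_nonneg_left h3 hj0,
        mul_le_mul_of_nonneg_left u3 (show (0:ℝ) ≤ K + 1 by positivity)]

/-- a barren set together with one more island that makes it non-barren -/
lemma thresh (S : Finset ℕ) (κ : ℕ) (bar : Finset ℕ → Prop)
    (hb : ∀ T T', T' ⊆ T → T ⊆ S → bar T → bar T')
    (h0 : ∃ T ⊆ S, T.card = κ ∧ bar T) (U : Finset ℕ) (hU : U ⊆ S) (hc : U.card ≤ κ + 1)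
    (hn : ¬ bar U) : ∃ T ⊆ S, T.card = κ ∧ bar T ∧ ∃ x ∈ S, x ∉ T ∧ ¬ bar (insert x T) := by
  classical
  obtain ⟨T0, a1, a2, a3⟩ := h0
  obtain ⟨T, hT, hmax⟩ := exists_max_image (S.powerset.filter (fun T => T.card = κ ∧ bar T))
    (fun T => (T ∩ U).card) ⟨T0, by simp [a1, a2, a3]⟩
  simp only [mem_filter, mem_powerset] at hT hmax
  obtain ⟨x, hx, hxT⟩ : ∃ x ∈ U, x ∉ T := by
    by_contra h
    push Not at h
    exact hn (hb T U h hT.1 hT.2.2)
  refine ⟨T, hT.1, hT.2.1, hT.2.2, x, hU hx, hxT, fun hbar => ?_⟩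
  have hi : insert x T ⊆ S := insert_subset (hU hx) hT.1
  by_cases h : T ⊆ U
  · have : insert x T = U := eq_of_subset_of_card_le (insert_subset hx h) (by
      rw [card_insert_of_notMem hxT]; omega)
    exact hn (this ▸ hbar)
  · obtain ⟨y, hy, hyU⟩ := not_subset.1 h
    have := hmax ((insert x T).erase y) ⟨(erase_subset _ _).trans hi, by
      rw [card_erase_of_mem (mem_insert_of_mem hy), card_insert_of_notMem hxT]; omega,
      hb _ _ (erase_subset _ _) hi hbar⟩
    have e : (insert x T).erase y ∩ U = insert x (T ∩ U) := by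
      ext z; simp only [mem_inter, mem_erase, mem_insert]
      constructor
      · rintro ⟨⟨_, h | h⟩, h'⟩
        · exact Or.inl h
        · exact Or.inr ⟨h, h'⟩
      · rintro (rfl | ⟨h, h'⟩)
        · exact ⟨⟨fun e => hyU (e ▸ hx), Or.inl rfl⟩, hx⟩
        · exact ⟨⟨fun e => hyU (e ▸ h'), Or.inr h⟩, h'⟩
    rw [e, card_insert_of_notMem (by simp [hxT])] at this
    omega

lemma knife {α : Type} [DecidableEq α] (N : Finset α) (g : α → ℝ → ℝ) (θ : α → ℝ) (a b : ℝ)
    (hab : a ≤ b) (hc : ∀ i, Continuous (g i)) (hm : ∀ i, Monotone (g i))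
    (h0 : ∀ i ∈ N, g i a < θ i) (h1 : ∃ i ∈ N, θ i ≤ g i b) :
    ∃ x, a ≤ x ∧ x ≤ b ∧ (∃ i ∈ N, θ i ≤ g i x) ∧ ∀ i ∈ N, g i x ≤ θ i := by
  classical
  have : ∀ i, ∃ x, i ∈ N → θ i ≤ g i b → (a ≤ x ∧ x ≤ b) ∧ g i x = θ i := by
    intro i
    by_cases h : i ∈ N ∧ θ i ≤ g i b
    · obtain ⟨x, hx, e⟩ := intermediate_value_Icc hab (hc i).continuousOn ⟨(h0 i h.1).le, h.2⟩
      exact ⟨x, fun _ _ => ⟨hx, e⟩⟩
    · exact ⟨0, fun h1 h2 => absurd ⟨h1, h2⟩ h⟩
  choose x hx using this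
  obtain ⟨j, hj, hj'⟩ := h1
  obtain ⟨i, hi, hmin⟩ := exists_min_image (N.filter (fun i => θ i ≤ g i b)) x
    ⟨j, mem_filter.2 ⟨hj, hj'⟩⟩
  obtain ⟨hi1, hi2⟩ := mem_filter.1 hi
  have := hx i hi1 hi2
  refine ⟨x i, this.1.1, this.1.2, ⟨i, hi1, this.2.ge⟩, fun l hl => ?_⟩
  by_cases h : θ l ≤ g l b
  · rw [← (hx l hl h).2]; exact hm l (hmin l (mem_filter.2 ⟨hl, h⟩))
  · exact (hm l this.1.2).trans (not_le.1 h).le

end Pool.Agent.H.MP_a8acf3_co
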