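import Mathlib
import Pool.Agent.H.MP_a8acf3_co.A

namespace Pool.Agent.H.MP_a8acf3_co
open Finset

variable {α : Type} [DecidableEq α] (F : α → ℕ → ℝ → ℝ)

def Good (N : Finset α) (S : Finset ℕ) (a b : ℕ → ℝ) (k : α → ℕ) (θ : α → ℝ) : Prop :=
  ∃ (T : α → Finset ℕ) (l r : α → ℕ → ℝ),
    (∀ i ∈ N, T i ⊆ S ∧ (T i).card ≤ k i ∧ (∀ j ∈ T i, a j ≤ l i j ∧ l i j ≤ r i j ∧ r i j ≤ b j) ∧
      θ i ≤ ∑ j ∈ T i, (F i j (r i j) - F i j (l i j))) ∧
    ∀ i ∈ N, ∀ i' ∈ N, i ≠ i' → ∀ j ∈ T i, j ∈ T i' → r i j ≤ l i' j ∨ r i' j ≤ l i j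

def V (S : Finset ℕ) (a b : ℕ → ℝ) (i : α) : ℝ := ∑ j ∈ S, (F i j (b j) - F i j (a j))

omit [DecidableEq α] in
lemma Good.sub (hm : ∀ i j, Monotone (F i j)) {N : Finset α} {S : Finset ℕ} {a b : ℕ → ℝ}
    {k k' : α → ℕ} {θ θ' : α → ℝ} (h : Good F N S a b k θ) (hk : ∀ i ∈ N, k' i ≤ k i ∧ 0 < k i)
    (hθ : ∀ i ∈ N, k i * θ' i ≤ k' i * θ i) : Good F N S a b k' θ' := by
  obtain ⟨T, l, r, h1, h2⟩ := h
  have : ∀ i, ∃ U, i ∈ N → U ⊆ T i ∧ U.card ≤ k' i ∧
      θ' i ≤ ∑ j ∈ U, (F i j (r i j) - F i j (l i j)) := by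
    intro i
    by_cases hi : i ∈ N
    · obtain ⟨a1, a2, a3, a4⟩ := h1 i hi
      obtain ⟨U, u1, u2, u3⟩ := best (fun j => F i j (r i j) - F i j (l i j)) (k i) (k' i)
        (hk i hi).1 (T i) a2 (fun j hj => sub_nonneg.2 (hm i j (a3 j hj).2.1))
      refine ⟨U, fun _ => ⟨u1, u2, ?_⟩⟩
      have hk0 : (0 : ℝ) < k i := by exact_mod_cast (hk i hi).2
      refine le_of_mul_le_mul_left ?_ hk0
      have := mul_le_mul_of_nonneg_left a4 (Nat.cast_nonneg (α := ℝ) (k' i))
      linarith [hθ i hi]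
    · exact ⟨∅, fun h => absurd h hi⟩
  choose U hU using this
  exact ⟨U, l, r, fun i hi => ⟨(hU i hi).1.trans (h1 i hi).1, (hU i hi).2.1,
    fun j hj => (h1 i hi).2.2.1 j ((hU i hi).1 hj), (hU i hi).2.2⟩,
    fun i hi i' hi' hne j hj hj' => h2 i hi i' hi' hne j ((hU i hi).1 hj) ((hU i' hi').1 hj')⟩

omit [DecidableEq α] in
lemma pad (N : Finset α) (S : Finset ℕ) (a b : ℕ → ℝ) (hab : ∀ j ∈ S, a j ≤ b j) (m : ℕ)
    (hm : S.card ≤ m) : ∃ (S' : Finset ℕ) (b' : ℕ → ℝ), S'.card = m ∧ (∀ j ∈ S', a j ≤ b' j) ∧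
      (∀ i, V F S' a b' i = V F S a b i) ∧ ∀ k θ, Good F N S' a b' k θ → Good F N S a b k θ := by
  obtain ⟨S', h1, h2⟩ := Infinite.exists_superset_card_eq S m hm
  refine ⟨S', fun j => if j ∈ S then b j else a j, h2, fun j _ => ?_, fun i => ?_, ?_⟩
  · simp only; split_ifs with h
    exacts [hab j h, le_rfl]
  · simp only [V]
    rw [← sum_subset h1 (fun j _ hj => by simp [hj])]
    exact sum_congr rfl fun j hj => by simp [hj]
  · rintro k θ ⟨T, l, r, g1, g2⟩
    refine ⟨fun i => T i ∩ S, l, r, fun i hi => ?_, fun i hi i' hi' hne j hj hj' =>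
      g2 i hi i' hi' hne j (mem_inter.1 hj).1 (mem_inter.1 hj').1⟩
    obtain ⟨a1, a2, a3, a4⟩ := g1 i hi
    refine ⟨inter_subset_right, (card_le_card inter_subset_left).trans a2, fun j hj => ?_, ?_⟩
    · have := a3 j (mem_inter.1 hj).1
      simpa [(mem_inter.1 hj).2] using this
    · rw [sum_subset inter_subset_left]
      · exact a4
      · intro j hj hj'
        have h := a3 j hj
        have : j ∉ S := fun e => hj' (mem_inter.2 ⟨hj, e⟩)
        simp only [this, if_false] at h
        rw [show r i j = l i j by linarith [h.1, h.2.1, h.2.2], sub_self]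

def Claim (n : ℕ) : Prop :=
  ∀ (N : Finset α) (κ : ℕ) (S : Finset ℕ) (a b : ℕ → ℝ) (L : α → Bool) (θ : α → ℝ),
    N.card = n → (∀ j ∈ S, a j ≤ b j) → (∀ i ∈ N, 0 ≤ θ i) → n * κ + 1 ≤ S.card →
    S.card ≤ n * (κ + 1) + 1 →
    (∀ i ∈ N, L i = true → θ i * (S.card + n - 1) ≤ (κ + 1) * V F S a b i) →
    (∀ i ∈ N, L i = false → n * θ i ≤ V F S a b i) →
    Good F N S a b (fun i => if L i then κ + 1 else κ + 2) θ

lemma step (hc : ∀ i j, Continuous (F i j)) (hm : ∀ i j, Monotone (F i j)) (n : ℕ)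
    (ih : ∀ n' < n, Claim F n') (N : Finset α) (κ : ℕ) (S : Finset ℕ) (a b : ℕ → ℝ)
    (L : α → Bool) (θ : α → ℝ) (hN : N.card = n) (hab : ∀ j ∈ S, a j ≤ b j)
    (hθ : ∀ i ∈ N, 0 ≤ θ i) (h1 : n * κ + 1 ≤ S.card) (h2 : S.card ≤ n * (κ + 1))
    (hL : ∀ i ∈ N, L i = true → θ i * (S.card + n - 1) ≤ (κ + 1) * V F S a b i)
    (hH : ∀ i ∈ N, L i = false → n * θ i ≤ V F S a b i) (i0 : α) (hi0 : i0 ∈ N)
    (hL0 : L i0 = true) : Good F N S a b (fun i => if L i then κ + 1 else κ + 2) θ := by
  classical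
  have hn : 0 < n := hN ▸ card_pos.2 ⟨i0, hi0⟩
  have hk : ∀ i, κ + 1 ≤ (if L i then κ + 1 else κ + 2) := fun i => by split_ifs <;> omega
  have hw : ∀ i, ∀ j ∈ S, 0 ≤ F i j (b j) - F i j (a j) := fun i j hj =>
    sub_nonneg.2 (hm i j (hab j hj))
  have hmono : ∀ i T T', T' ⊆ T → T ⊆ S → V F T' a b i ≤ V F T a b i := fun i T T' h h' =>
    sum_le_sum_of_subset_of_nonneg h fun j hj _ => hw i j (h' hj)
  by_cases hb : ∃ T ⊆ S, T.card = κ ∧ ∀ i ∈ N, V F T a b i < θ i
  · have hκ : κ + 1 ≤ S.card := by nlinarith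
    obtain ⟨U, u1, u2, u3⟩ := best (fun j => F i0 j (b j) - F i0 j (a j)) S.card (κ + 1) hκ S
      le_rfl (hw i0)
    obtain ⟨T, t1, t2, t3, x, x1, x2, x3⟩ := thresh S κ (fun T => ∀ i ∈ N, V F T a b i < θ i)
      (fun T T' h h' hT i hi => (hmono i T T' h h').trans_lt (hT i hi)) hb U u1 u2 (by
        intro h
        have a1 := h i0 hi0
        have a2 := hL i0 hi0 hL0
        have a3 : (0 : ℝ) < S.card := by exact_mod_cast (by omega : 0 < S.card)
        have a4 : (1 : ℝ) ≤ n := by exact_mod_cast hn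
        simp only [V] at a1 a2
        push_cast at u3
        nlinarith [mul_lt_mul_of_pos_left a1 a3, mul_nonneg (hθ i0 hi0) (sub_nonneg.2 a4)])
    push Not at x3
    obtain ⟨y, y1, y2, ⟨i, hi, y3⟩, y4⟩ := knife N (fun i y => V F T a b i + (F i x y - F i x (a x)))
      θ (a x) (b x) (hab x x1) (fun i => by have := hc i x; fun_prop)
      (fun i s t h => by have := hm i x h; simp only; linarith)
      (fun i hi => by simpa using t3 i hi) (by
        obtain ⟨i, hi, h⟩ := x3
        exact ⟨i, hi, by rwa [V, sum_insert x2, add_comm] at h⟩)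
    have hxS : x ∈ S \ T := mem_sdiff.2 ⟨x1, x2⟩
    have hV : ∀ l, V F (S \ T) (Function.update a x y) b l
        = V F S a b l - (V F T a b l + (F l x y - F l x (a x))) := by
      intro l
      simp only [V]
      rw [← sum_sdiff t1, ← add_sum_erase _ _ hxS, ← add_sum_erase _ _ hxS, Function.update_self,
        sum_congr rfl (fun j hj => by rw [Function.update_of_ne (ne_of_mem_erase hj)])]
      ring
    have hcard : (S \ T).card + κ = S.card := by rw [← t2]; exact card_sdiff_add_card_eq_card t1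
    obtain ⟨n', rfl⟩ : ∃ n', n = n' + 1 := ⟨n - 1, by omega⟩
    obtain ⟨T', l, r, g1, g2⟩ := ih n' (by omega) (N.erase i) κ (S \ T) (Function.update a x y) b L θ
      (by rw [card_erase_of_mem hi]; omega)
      (fun j hj => by
        by_cases e : j = x
        · rw [e, Function.update_self]; exact y2
        · rw [Function.update_of_ne e]; exact hab j (mem_sdiff.1 hj).1)
      (fun l hl => hθ l (mem_of_mem_erase hl)) (by nlinarith) (by nlinarith)
      (fun l hl h => by
        have a1 := hL l (mem_of_mem_erase hl) h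
        have a2 := y4 l (mem_of_mem_erase hl)
        rw [hV, ← hcard] at *
        push_cast at a1
        nlinarith [mul_le_mul_of_nonneg_left a2 (show (0:ℝ) ≤ κ + 1 by positivity)])
      (fun l hl h => by
        have a1 := hH l (mem_of_mem_erase hl) h
        have a2 := y4 l (mem_of_mem_erase hl)
        rw [hV]
        push_cast at a1
        linarith)
    have hle : ∀ j ∈ S \ T, a j ≤ Function.update a x y j := fun j _ => by
      by_cases e : j = x
      · rw [e, Function.update_self]; exact y1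
      · rw [Function.update_of_ne e]
    have key : ∀ l' ∈ N, l' ≠ i → ∀ j ∈ insert x T, j ∈ T' l' →
        Function.update b x y j ≤ l l' j := by
      intro l' hl e j hj hj'
      obtain ⟨a1, -, a3, -⟩ := g1 l' (mem_erase.2 ⟨e, hl⟩)
      rcases mem_insert.1 hj with rfl | hj
      · simpa using (a3 _ hj').1
      · exact absurd hj (mem_sdiff.1 (a1 hj')).2
    refine ⟨Function.update T' i (insert x T), Function.update l i a,
      Function.update r i (Function.update b x y), fun l' hl => ?_, fun l1 hl1 l2 hl2 hne => ?_⟩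
    · by_cases e : l' = i
      · subst e
        simp only [Function.update_self]
        refine ⟨insert_subset x1 t1, by rw [card_insert_of_notMem x2, t2]; exact hk _,
          fun j hj => ?_, ?_⟩
        · by_cases e : j = x
          · rw [e, Function.update_self]; exact ⟨le_rfl, y1, y2⟩
          · rw [Function.update_of_ne e]
            exact ⟨le_rfl, hab j (insert_subset x1 t1 hj), le_rfl⟩
        · rw [sum_insert x2, Function.update_self, sum_congr rfl (fun j hj => by
            rw [Function.update_of_ne (fun e : j = x => x2 (e ▸ hj))]), add_comm]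
          exact y3
      · simp only [Function.update_of_ne e]
        obtain ⟨a1, a2, a3, a4⟩ := g1 l' (mem_erase.2 ⟨e, hl⟩)
        exact ⟨a1.trans sdiff_subset, a2, fun j hj => ⟨(hle j (a1 hj)).trans (a3 j hj).1,
          (a3 j hj).2⟩, a4⟩
    · by_cases e1 : l1 = i <;> by_cases e2 : l2 = i
      · exact absurd (e1.trans e2.symm) hne
      · subst e1
        simp only [Function.update_self, Function.update_of_ne e2]
        exact fun j hj hj' => Or.inl (key l2 hl2 e2 j hj hj')
      · subst e2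
        simp only [Function.update_self, Function.update_of_ne e1]
        exact fun j hj hj' => Or.inr (key l1 hl1 e1 j hj' hj)
      · simp only [Function.update_of_ne e1, Function.update_of_ne e2]
        exact g2 l1 (mem_erase.2 ⟨e1, hl1⟩) l2 (mem_erase.2 ⟨e2, hl2⟩) hne
  · push Not at hb
    obtain ⟨A, hA, hAc⟩ := exists_subset_card_eq (s := N) (n := S.card - (n * κ + 1))
      (by rw [hN, mul_add] at *; omega)
    have hsum : ∀ Y : Finset α, ∑ y ∈ Y, (if y ∈ A then κ + 1 else κ) = Y.card * κ + (Y ∩ A).card := by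
      intro Y
      have : ∀ y ∈ Y, (if y ∈ A then κ + 1 else κ) = κ + if y ∈ A then 1 else 0 := by
        intro y _; split_ifs <;> rfl
      rw [sum_congr rfl this, sum_add_distrib, sum_const, smul_eq_mul, ← card_filter,
        filter_mem_eq_inter]
    obtain ⟨g, g1, g2⟩ := groups N (fun y => if y ∈ A then κ + 1 else κ) S (by
      rw [hsum, inter_eq_right.2 hA, hN, hAc]; omega)
    obtain ⟨Y, f, y1, y2, y3, y4, y5⟩ := efm N N ⟨i0, hi0⟩ le_rfl
      (fun i y => θ i ≤ V F (g y) a b i) (fun y hy => by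
        obtain ⟨T, t1, t2⟩ := exists_subset_card_eq (s := g y) (n := κ) (by
          rw [(g1 y hy).2]; split_ifs <;> omega)
        obtain ⟨i, hi, h⟩ := hb T (t1.trans (g1 y hy).1) t2
        exact ⟨i, hi, h.trans (hmono i _ _ t1 (g1 y hy).1)⟩)
    have hdis : (Y : Set α).PairwiseDisjoint g := fun y hy y' hy' h => g2 y (y1 hy) y' (y1 hy') h
    have hUS : Y.biUnion g ⊆ S := biUnion_subset.2 fun y hy => (g1 y (y1 hy)).1
    have hUc : (Y.biUnion g).card = Y.card * κ + (Y ∩ A).card := by
      rw [card_biUnion hdis, ← hsum]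
      exact sum_congr rfl fun y hy => (g1 y (y1 hy)).2
    have hcard := card_sdiff_add_card_eq_card hUS
    have hfN : Y.image f ⊆ N := fun i hi => by
      obtain ⟨y, hy, rfl⟩ := mem_image.1 hi; exact (y4 y hy).1
    have hn' := card_sdiff_add_card_eq_card hfN
    rw [card_image_of_injOn y3, hN] at hn'
    have hY0 := card_pos.2 y2
    have hA1 : (Y ∩ A).card ≤ A.card := card_le_card inter_subset_right
    have hA2 : A.card + Y.card ≤ n + (Y ∩ A).card := by
      rw [add_comm A.card, ← card_union_add_card_inter, ← hN]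
      exact Nat.add_le_add_right (card_le_card (union_subset y1 hA)) _
    have hV : ∀ l ∈ N \ Y.image f, V F S a b l - Y.card * θ l ≤ V F (S \ Y.biUnion g) a b l := by
      intro l hl
      obtain ⟨b1, b2⟩ := mem_sdiff.1 hl
      have : ∑ y ∈ Y, V F (g y) a b l ≤ Y.card * θ l := by
        rw [← nsmul_eq_mul]
        exact sum_le_card_nsmul _ _ _ fun y hy => (not_le.1 (y5 l b1 b2 y hy)).le
      simp only [V] at this ⊢
      rw [← sum_sdiff hUS, sum_biUnion hdis]
      linarith
    have e1 : n * κ = (N \ Y.image f).card * κ + Y.card * κ := by rw [← hn']; ring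
    have e2 : S.card = n * κ + 1 + A.card := by omega
    obtain ⟨T', l, r, k1, k2⟩ := ih (N \ Y.image f).card (by omega)
      (N \ Y.image f) κ (S \ Y.biUnion g) a b L θ rfl (fun j hj => hab j (mem_sdiff.1 hj).1)
      (fun l hl => hθ l (mem_sdiff.1 hl).1) (by omega) (by rw [mul_add]; omega)
      (fun l hl h => by
        have a1 := hL l (mem_sdiff.1 hl).1 h
        have a2 := hV l hl
        have a3 := hθ l (mem_sdiff.1 hl).1
        rw [← hcard, hUc, ← hn'] at a1
        push_cast at a1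
        nlinarith [mul_le_mul_of_nonneg_left a2 (show (0:ℝ) ≤ κ + 1 by positivity),
          mul_nonneg a3 (Nat.cast_nonneg (Y ∩ A).card)])
      (fun l hl h => by
        have a1 := hH l (mem_sdiff.1 hl).1 h
        have a2 := hV l hl
        rw [← hn'] at a1
        push_cast at a1
        linarith)
    have hinv : ∀ i, ∃ y, i ∈ Y.image f → y ∈ Y ∧ f y = i := fun i => by
      by_cases h : i ∈ Y.image f
      · obtain ⟨y, hy⟩ := mem_image.1 h; exact ⟨y, fun _ => hy⟩
      · exact ⟨i0, fun h' => absurd h' h⟩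
    choose u hu using hinv
    have key : ∀ i ∈ Y.image f, ∀ i' ∈ N, i' ∉ Y.image f → ∀ j ∈ g (u i), j ∉ T' i' :=
      fun i hi i' hi' h j hj hj' => (mem_sdiff.1 ((k1 i' (mem_sdiff.2 ⟨hi', h⟩)).1 hj')).2
        (mem_biUnion.2 ⟨u i, (hu i hi).1, hj⟩)
    refine ⟨fun i => if i ∈ Y.image f then g (u i) else T' i,
      fun i => if i ∈ Y.image f then a else l i, fun i => if i ∈ Y.image f then b else r i,
      fun i hi => ?_, fun i hi i' hi' hne => ?_⟩
    · by_cases h : i ∈ Y.image f
      · simp only [h, if_true]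
        obtain ⟨b1, b2⟩ := hu i h
        have c := g1 _ (y1 b1)
        refine ⟨c.1, ?_, fun j hj => ⟨le_rfl, hab j (c.1 hj), le_rfl⟩, ?_⟩
        · refine le_trans ?_ (hk i)
          rw [c.2]; split_ifs <;> omega
        · have := (y4 _ b1).2
          rwa [b2] at this
      · simp only [h, if_false]
        obtain ⟨a1, a2⟩ := k1 i (mem_sdiff.2 ⟨hi, h⟩)
        exact ⟨a1.trans sdiff_subset, a2⟩
    · by_cases h : i ∈ Y.image f <;> by_cases h' : i' ∈ Y.image f <;>
        simp only [h, h', if_true, if_false]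
      · intro j hj hj'
        refine absurd hj' (disjoint_left.1 (g2 _ (y1 (hu i h).1) _ (y1 (hu i' h').1) ?_) hj)
        intro e
        exact hne (by rw [← (hu i h).2, e, (hu i' h').2])
      · exact fun j hj hj' => absurd hj' (key i h i' hi' h' j hj)
      · exact fun j hj hj' => absurd hj (key i' h' i hi h j hj')
      · exact k2 i (mem_sdiff.2 ⟨hi, h⟩) i' (mem_sdiff.2 ⟨hi', h'⟩) hne

theorem claim (hc : ∀ i j, Continuous (F i j)) (hm : ∀ i j, Monotone (F i j)) (n : ℕ) :
    Claim F n := by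
  induction n using Nat.strong_induction_on with
  | _ n ih =>
  intro N κ S a b L θ hN hab hθ h1 h2 hL hH
  rcases N.eq_empty_or_nonempty with rfl | ⟨i0, hi0⟩
  · exact ⟨fun _ => ∅, fun _ => a, fun _ => a, by simp, by simp⟩
  by_cases h : S.card ≤ n * (κ + 1) ∧ ∃ i ∈ N, L i = true
  · obtain ⟨h, i, hi, hi'⟩ := h
    exact step F hc hm n ih N κ S a b L θ hN hab hθ h1 h hL hH i hi hi'
  · have hn : 0 < n := hN ▸ card_pos.2 ⟨i0, hi0⟩
    obtain ⟨S', b', p1, p2, p3, p4⟩ := pad F N S a b hab _ h2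
    have hκ : (0 : ℝ) < κ + 1 := by positivity
    have := step F hc hm n ih N (κ + 1) S' a b' (fun _ => true)
      (fun i => if L i then θ i * (κ + 2) / (κ + 1) else θ i) hN p2
      (fun i hi => by have := hθ i hi; split_ifs <;> positivity) p1.ge (by rw [p1]; nlinarith)
      (fun i hi _ => by
        rw [p3, p1]
        push_cast
        cases e : L i
        · have := hH i hi e
          simp only [Bool.false_eq_true, if_false]
          nlinarith
        · have a1 := hL i hi e
          have a2 : S.card = n * (κ + 1) + 1 := by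
            by_contra h'
            exact h ⟨by omega, i, hi, e⟩
          rw [a2] at a1
          push_cast at a1
          simp only [if_true]
          rw [div_mul_eq_mul_div, div_le_iff₀ hκ]
          nlinarith)
      (fun _ _ h => by simp at h) i0 hi0 rfl
    refine (p4 _ _ this).sub F hm (fun i _ => ?_) (fun i _ => ?_)
    · simp only [if_true]; split_ifs <;> omega
    · simp only [if_true]
      split_ifs
      · push_cast; field_simp; ring_nf; rfl
      · push_cast; ring_nf; rfl

end Pool.Agent.H.MP_a8acf3_co
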